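import Pool.Agent.H31.BOU.Targets2

/-!
Row ALB: the averages at alive nodes and their children are bounded.
-/

set_option autoImplicit false

namespace Pool.Agent.H76.BOU

open Finset Pool.Agent.H31.BOU

theorem long_lt {r i : ℕ} {m : ℤ} {j : ℕ} {κ : ℤ} (hr : 2 ≤ r) (h : long r i m j κ) : j < i := by
  obtain ⟨h1, h2⟩ := h
  by_contra hc
  have h3 : (2 : ℤ) ^ i ≤ 2 ^ j := pow_le_pow_right₀ (by norm_num) (not_lt.1 hc)
  have h4 : (0 : ℤ) < 2 ^ j := by positivity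
  have h5 : (2 : ℤ) ≤ r := by exact_mod_cast hr
  have h6 : (2 * (r : ℤ)) * 2 ^ j ≤ 2 ^ i := by linarith
  have h7 : 4 * (2 : ℤ) ^ j ≤ (2 * (r : ℤ)) * 2 ^ j :=
    mul_le_mul_of_nonneg_right (by linarith) h4.le
  linarith

theorem pf_ALB (hS : T_SIG) (_hM : T_MON) : T_ALB := by
  intro T
  obtain ⟨C, hC, hb⟩ := hS 2
  refine ⟨C, hC, ?_⟩
  intro ι θ _ _ J q G Q P hH c r hcr i j κ
  have hr : 2 ≤ r := by
    rcases hcr with ⟨_, h⟩ | ⟨_, h⟩ <;> rw [h]
    unfold rr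
    omega
  have hc : 2 + 2 ≤ c := by
    rcases hcr with ⟨h, _⟩ | ⟨h, _⟩ <;> rw [h]
    unfold cc
    omega
  have hq : (0 : ℝ) ≤ q ^ 40 := pow_nonneg (zero_le_one.trans hH.q1) _
  have hfar : ∀ j κ, far c (3 / 2 * q ^ 40) Q (P.be i) j κ →
      ∀ u, near c (Q.sc u) (Q.mm u) j κ → q ^ 40 / 2 ^ j ≤ nd (P.be i - Q.be u) := by
    intro j κ h u hu
    have h1 := h u hu
    refine le_trans ?_ h1.le
    exact div_le_div_of_nonneg_right (by linarith) (by positivity)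
  constructor
  · intro hl hf hg
    have hj : j ≤ J := (long_lt hr hl).le.trans (hH.Ps i).1
    refine hb θ q G Q j κ c hH.q1 hH.G1 hc (hH.Qc j hj) hg.gn hg.gd (P.be i) (hfar j κ hf)
      j κ (Or.inl rfl) ?_ ?_
    · exact mul_le_mul_of_nonneg_right (by push_cast; linarith) (by positivity)
    · exact mul_le_mul_of_nonneg_right (by push_cast; linarith) (by positivity)
  · intro b hb0 hb2 hl hf hg
    have hj : j + 1 ≤ J := (long_lt hr hl).le.trans (hH.Ps i).1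
    have h2 : (0 : ℤ) < 2 ^ j := by positivity
    refine hb θ q G Q (j + 1) κ c hH.q1 hH.G1 hc (hH.Qc (j + 1) hj) hg.gn hg.gd (P.be i)
      (hfar (j + 1) κ hf) j (2 * κ + b) (Or.inr rfl) ?_ ?_
    · rw [pow_succ]
      push_cast
      nlinarith
    · rw [pow_succ]
      push_cast
      nlinarith

end Pool.Agent.H76.BOU
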